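import Pool.Agent.MP_670f9a_nt.H13.Spec2

/-!
Triangular combinations of the rows of the box matrix are long.
-/

namespace Pool.Agent.MP_670f9a_nt.H94

open Polynomial Real Finset Pool.Agent.MP_670f9a_nt.NP

/-- A polynomial in two variables as an iterated polynomial. -/
noncomputable def E (P : MvPolynomial (Fin 2) ℤ) : ℤ[X][X] :=
  (Polynomial.Bivariate.equivMvPolynomial ℤ).symm P

lemma E_add (P G : MvPolynomial (Fin 2) ℤ) : E (P + G) = E P + E G := map_add _ _ _

lemma E_mul (P G : MvPolynomial (Fin 2) ℤ) : E (P * G) = E P * E G := map_mul _ _ _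

lemma E_ne {P : MvPolynomial (Fin 2) ℤ} (h : P ≠ 0) : E P ≠ 0 := by
  intro h0
  exact h ((map_eq_zero_iff _ (Polynomial.Bivariate.equivMvPolynomial ℤ).symm.injective).1 h0)

lemma E_monomial (s : Fin 2 →₀ ℕ) (a : ℤ) :
    E (MvPolynomial.monomial s a) = monomial (s 1) (monomial (s 0) a) := by
  rw [MvPolynomial.monomial_eq, Finsupp.prod_fintype _ _ (by simp), Fin.prod_univ_two]
  simp only [E, map_mul, map_pow, Bivariate.equivMvPolynomial_symm_X_0,
    Bivariate.equivMvPolynomial_symm_X_1, Bivariate.equivMvPolynomial_symm_C]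
  rw [← C_mul_X_pow_eq_monomial, ← C_mul_X_pow_eq_monomial]
  simp only [map_mul, map_pow]
  ring

lemma ex_zero (i j : ℕ) : ex i j 0 = i := by simp [ex]

lemma ex_one (i j : ℕ) : ex i j 1 = j := by simp [ex]

lemma eq_ex_iff (s : Fin 2 →₀ ℕ) (i j : ℕ) : s = ex i j ↔ s 0 = i ∧ s 1 = j := by
  constructor
  · rintro rfl
    exact ⟨ex_zero _ _, ex_one _ _⟩
  · rintro ⟨h0, h1⟩
    ext t
    fin_cases t
    · simpa [ex_zero] using h0
    · simpa [ex_one] using h1

lemma E_coeff (P : MvPolynomial (Fin 2) ℤ) (i j : ℕ) :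
    ((E P).coeff j).coeff i = MvPolynomial.coeff (ex i j) P := by
  induction P using MvPolynomial.induction_on' with
  | monomial s a =>
    rw [E_monomial, MvPolynomial.coeff_monomial, coeff_monomial]
    by_cases h1 : s 1 = j
    · rw [if_pos h1, coeff_monomial]
      by_cases h0 : s 0 = i
      · rw [if_pos h0, if_pos ((eq_ex_iff _ _ _).2 ⟨h0, h1⟩)]
      · rw [if_neg h0, if_neg (fun h => h0 ((eq_ex_iff _ _ _).1 h).1)]
    · rw [if_neg h1, if_neg (fun h => h1 ((eq_ex_iff _ _ _).1 h).2), coeff_zero]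
  | add p q hp hq => rw [E_add, coeff_add, coeff_add, hp, hq, MvPolynomial.coeff_add]

lemma toC_add (F G : ℤ[X][X]) : toC (F + G) = toC F + toC G := Polynomial.map_add _

lemma toC_mul (F G : ℤ[X][X]) : toC (F * G) = toC F * toC G := Polynomial.map_mul _

lemma toC_monomial (j i : ℕ) (a : ℤ) :
    toC (monomial j (monomial i a)) = monomial j (monomial i (a : ℂ)) := by
  simp [toC]

lemma toC_coeff (F : ℤ[X][X]) (i j : ℕ) :
    ((toC F).coeff j).coeff i = (((F.coeff j).coeff i : ℤ) : ℂ) := by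
  simp [toC]

lemma E_evalEval (P : MvPolynomial (Fin 2) ℤ) (u v : ℂ) :
    (toC (E P)).evalEval u v = MvPolynomial.aeval ![u, v] P := by
  induction P using MvPolynomial.induction_on' with
  | monomial s a =>
    rw [E_monomial, toC_monomial, MvPolynomial.aeval_monomial,
      Finsupp.prod_fintype _ _ (by simp), Fin.prod_univ_two]
    simp [evalEval, mul_assoc]
  | add p q hp hq => rw [E_add, toC_add, evalEval_add, hp, hq, map_add]

lemma mahler_eq (P : MvPolynomial (Fin 2) ℤ) : NP.mahler P = m2 (toC (E P)) := by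
  unfold NP.mahler m2 Phi
  simp only [E_evalEval]

lemma box_support (P : MvPolynomial (Fin 2) ℤ) (Λ a b i j : ℕ) (ha : a < Λ - P.degreeOf 0)
    (hb : b < Λ - P.degreeOf 1)
    (h : MvPolynomial.coeff (ex i j) (P * MvPolynomial.monomial (ex a b) 1) ≠ 0) :
    i < Λ ∧ j < Λ := by
  rw [MvPolynomial.coeff_mul_monomial'] at h
  split_ifs at h with hle
  · have hm : ex i j - ex a b ∈ P.support := by
      rw [MvPolynomial.mem_support_iff]
      simpa using h
    have h0 := MvPolynomial.monomial_le_degreeOf 0 hm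
    have h1 := MvPolynomial.monomial_le_degreeOf 1 hm
    rw [Finsupp.tsub_apply, ex_zero, ex_zero] at h0
    rw [Finsupp.tsub_apply, ex_one, ex_one] at h1
    omega
  · exact absurd rfl h

/-- The triangular multiplier has leading coefficient one. -/
lemma lead_one {A B : ℕ} (k : Fin A ×ₗ Fin B) (c : Fin A ×ₗ Fin B → ℝ) (hk : c k = 1)
    (hc : ∀ l, k < l → c l = 0) :
    (∑ l : Fin A ×ₗ Fin B, monomial ((ofLex l).1 : ℕ) (monomial ((ofLex l).2 : ℕ) (c l : ℂ))
      : ℂ[X][X]).leadingCoeff.leadingCoeff = 1 := by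
  set Q : ℂ[X][X] :=
    ∑ l : Fin A ×ₗ Fin B, monomial ((ofLex l).1 : ℕ) (monomial ((ofLex l).2 : ℕ) (c l : ℂ))
    with hQ
  have hco : ∀ j i : ℕ, (Q.coeff j).coeff i =
      ∑ l : Fin A ×ₗ Fin B,
        if ((ofLex l).1 : ℕ) = j ∧ ((ofLex l).2 : ℕ) = i then (c l : ℂ) else 0 := by
    intro j i
    rw [hQ, finsetSum_coeff, finsetSum_coeff]
    refine Finset.sum_congr rfl fun l _ => ?_
    rw [coeff_monomial]
    by_cases h1 : ((ofLex l).1 : ℕ) = j
    · rw [if_pos h1, coeff_monomial]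
      by_cases h2 : ((ofLex l).2 : ℕ) = i
      · rw [if_pos h2, if_pos ⟨h1, h2⟩]
      · rw [if_neg h2, if_neg (fun h => h2 h.2)]
    · rw [if_neg h1, if_neg (fun h => h1 h.1), coeff_zero]
  have hlt : ∀ l : Fin A ×ₗ Fin B, (((ofLex k).1 : ℕ) < (ofLex l).1 ∨
      (((ofLex l).1 : ℕ) = (ofLex k).1 ∧ ((ofLex k).2 : ℕ) < (ofLex l).2)) → c l = 0 := by
    intro l hl
    apply hc
    rw [Prod.Lex.lt_iff]
    rcases hl with hl | ⟨h1, h2⟩
    · exact Or.inl hl
    · exact Or.inr ⟨Fin.ext h1.symm, h2⟩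
  have hkk : (Q.coeff (ofLex k).1).coeff (ofLex k).2 = 1 := by
    rw [hco, Finset.sum_eq_single k]
    · simp [hk]
    · intro l _ hl
      rw [if_neg]
      rintro ⟨h1, h2⟩
      apply hl
      have : ofLex l = ofLex k := Prod.ext (Fin.ext h1) (Fin.ext h2)
      exact ofLex.injective this
    · simp
  have hd1 : Q.natDegree = (ofLex k).1 := by
    apply natDegree_eq_of_le_of_coeff_ne_zero
    · rw [natDegree_le_iff_coeff_eq_zero]
      intro j hj
      ext i
      rw [hco, coeff_zero]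
      refine Finset.sum_eq_zero fun l _ => ?_
      split_ifs with h
      · rw [hlt l (Or.inl (by omega))]
        simp
      · rfl
    · intro h0
      rw [h0] at hkk
      simp at hkk
  have hd2 : (Q.coeff (ofLex k).1).natDegree = (ofLex k).2 := by
    apply natDegree_eq_of_le_of_coeff_ne_zero
    · rw [natDegree_le_iff_coeff_eq_zero]
      intro i hi
      rw [hco]
      refine Finset.sum_eq_zero fun l _ => ?_
      split_ifs with h
      · rw [hlt l (Or.inr ⟨h.1, by omega⟩)]
        simp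
      · rfl
    · rw [hkk]
      exact one_ne_zero
  rw [leadingCoeff, leadingCoeff, hd1, hd2, hkk]

theorem sLow (h1 : SAdd) (h2 : SLan) : SLow := by
  obtain ⟨hmul, -, -, hlead, hint⟩ := h1
  intro P Λ hP
  obtain ⟨hne, hnn⟩ := hint (E P) (E_ne hP)
  refine ⟨by rw [mahler_eq]; exact hnn, fun k c hk hc => ?_⟩
  have hl := lead_one k c hk hc
  set Q : ℂ[X][X] := ∑ l : Fin (Λ - P.degreeOf 1) ×ₗ Fin (Λ - P.degreeOf 0),
    monomial ((ofLex l).1 : ℕ) (monomial ((ofLex l).2 : ℕ) (c l : ℂ)) with hQ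
  have hQ0 : Q ≠ 0 := by
    intro h0
    rw [h0] at hl
    simp at hl
  have hQm : 0 ≤ m2 Q := hlead Q (by rw [hl]; simp)
  set H := toC (E P) * Q with hH
  have hH0 : H ≠ 0 := mul_ne_zero hne hQ0
  have hco : ∀ j i : ℕ, (H.coeff j).coeff i =
      ((∑ l : Fin (Λ - P.degreeOf 1) ×ₗ Fin (Λ - P.degreeOf 0), c l *
        ((MvPolynomial.coeff (ex i j)
          (P * MvPolynomial.monomial (ex (ofLex l).2 (ofLex l).1) 1) : ℤ) : ℝ) : ℝ) : ℂ) := by
    intro j i
    rw [hH, hQ, Finset.mul_sum, finsetSum_coeff, finsetSum_coeff]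
    push_cast
    refine Finset.sum_congr rfl fun l _ => ?_
    have : toC (E P) * monomial ((ofLex l).1 : ℕ) (monomial ((ofLex l).2 : ℕ) (c l : ℂ)) =
        C (C (c l : ℂ)) *
          toC (E (P * MvPolynomial.monomial (ex (ofLex l).2 (ofLex l).1) 1)) := by
      rw [E_mul, toC_mul, E_monomial, toC_monomial, ex_zero, ex_one, mul_left_comm,
        C_mul_monomial, C_mul_monomial]
      simp
    rw [this, coeff_C_mul, coeff_C_mul, toC_coeff, E_coeff]
  have hbox : ∀ j i : ℕ, (H.coeff j).coeff i ≠ 0 → i < Λ ∧ j < Λ := by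
    intro j i h
    rw [hco, Complex.ofReal_ne_zero] at h
    obtain ⟨l, -, hl⟩ := Finset.exists_ne_zero_of_sum_ne_zero h
    refine box_support P Λ _ _ i j (ofLex l).2.2 (ofLex l).1.2 ?_
    intro h0
    rw [h0] at hl
    simp at hl
  calc exp (2 * NP.mahler P) ≤ exp (2 * m2 H) := by
        rw [exp_le_exp, hH, hmul _ _ hne hQ0, mahler_eq]
        linarith
    _ ≤ ∑ j ∈ H.support, ∑ i ∈ (H.coeff j).support, ‖(H.coeff j).coeff i‖ ^ 2 := h2 H hH0
    _ ≤ ∑ j ∈ H.support, ∑ i ∈ range Λ, ‖(H.coeff j).coeff i‖ ^ 2 := by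
        refine Finset.sum_le_sum fun j _ => ?_
        refine Finset.sum_le_sum_of_subset_of_nonneg (fun i hi => ?_) fun _ _ _ => by positivity
        exact mem_range.2 (hbox j i (mem_support_iff.1 hi)).1
    _ ≤ ∑ j ∈ range Λ, ∑ i ∈ range Λ, ‖(H.coeff j).coeff i‖ ^ 2 := by
        refine Finset.sum_le_sum_of_subset_of_nonneg (fun j hj => ?_) fun _ _ _ => by positivity
        have hj' := mem_support_iff.1 hj
        obtain ⟨i, hi⟩ : ∃ i, (H.coeff j).coeff i ≠ 0 := by
          by_contra hcon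
          push Not at hcon
          exact hj' (Polynomial.ext fun i => by rw [hcon i, coeff_zero])
        exact mem_range.2 (hbox j i hi).2
    _ = ∑ i, (∑ l, c l * (box P Λ l i : ℝ)) ^ 2 := by
        rw [Finset.sum_comm, Fintype.sum_prod_type, Finset.sum_range]
        refine Finset.sum_congr rfl fun i _ => ?_
        rw [Finset.sum_range]
        refine Finset.sum_congr rfl fun j _ => ?_
        rw [hco, Complex.norm_real, Real.norm_eq_abs, sq_abs]
        rfl

end Pool.Agent.MP_670f9a_nt.H94
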